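import Pool.Agent.H63.UC.Circ
import Pool.Agent.H63.YQ.Dq

/-!
# The symmetry of the counting formulas
-/

set_option autoImplicit false
set_option linter.unusedSectionVars false

namespace Pool.Agent.H63.UC

open Pool.Agent.H63.YL Pool.Agent.H63.UB

variable {P H : Type} {D : Dat P H} [Finite {a : Nd D // Good a}]

/-- the nodes of the counting formulas of one stage -/
def In (q : D.Q) (s s' : ℕ) : Nd D → Prop
  | .top => True
  | .cell q' t t' _ _ => q' = q ∧ t = s ∧ t' = s'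
  | .pr q' t t' _ _ _ => q' = q ∧ t = s ∧ t' = s'
  | .sn q' t t' _ _ => q' = q ∧ t = s ∧ t' = s'
  | _ => False

open Classical in
/-- the image of a node -/
def Rel (q : D.Q) (s s' : ℕ) (σ : Equiv.Perm P) (τ : Equiv.Perm H) (a b : Nd D) : Prop :=
  (∃ x y, a = .var x y ∧ b = .var (σ x) (τ y)) ∨
    (∃ μ : Finset (P × H), a = .cj μ ∧ b = .cj (μ.image (Prod.map σ τ))) ∨ (a = b ∧ In q s s' a)

theorem mt_image [DecidableEq P] [DecidableEq H] {σ : Equiv.Perm P} {τ : Equiv.Perm H}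
    {μ : Finset (P × H)} (h : Mt μ) : Mt (μ.image (Prod.map σ τ)) := by
  intro p hp q hq hpq
  obtain ⟨p', hp', rfl⟩ := Finset.mem_image.1 hp
  obtain ⟨q', hq', rfl⟩ := Finset.mem_image.1 hq
  have : p' = q' := by
    refine h p' hp' q' hq' ?_
    rcases hpq with h1 | h1
    · exact Or.inl (σ.injective h1)
    · exact Or.inr (τ.injective h1)
  rw [this]

theorem card_map [DecidableEq P] [DecidableEq H] {σ : Equiv.Perm P} {τ : Equiv.Perm H}
    (μ : Finset (P × H)) : (μ.image (Prod.map σ τ)).card = μ.card :=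
  Finset.card_image_of_injective _ (σ.injective.prodMap τ.injective)

theorem map_inv [DecidableEq P] [DecidableEq H] {σ : Equiv.Perm P} {τ : Equiv.Perm H}
    (μ : Finset (P × H)) : (μ.image (Prod.map σ.symm τ.symm)).image (Prod.map σ τ) = μ := by
  rw [Finset.image_image]
  have : (Prod.map σ τ ∘ Prod.map σ.symm τ.symm : P × H → P × H) = id := by
    funext p
    exact Prod.ext (σ.apply_symm_apply _) (τ.apply_symm_apply _)
  rw [this, Finset.image_id]

theorem hom_count {q : D.Q} {s s' L r : ℕ} {u : P → ℕ} {v : H → ℕ}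
    (hu : ∀ x x', u x = u x' → D.cu q x = D.cu q x' ∧ (x ∈ D.X q s ↔ x' ∈ D.X q s))
    (hv : ∀ y y', v y = v y' → D.cv q y = D.cv q y' ∧ (y ∈ D.Y q s' ↔ y' ∈ D.Y q s'))
    (hr : rare u L + rare v L ≤ r) (a : (Cc D).N) (ha : In q s s' (show {a : Nd D // Good a} from a).1) :
    (Cc D).Hom L r a := by
  classical
  refine ⟨u, v, fun σ τ hσ hτ => ?_, hr⟩
  refine ⟨fun a b => Rel q s s' σ τ (show {a : Nd D // Good a} from a).1
    (show {a : Nd D // Good a} from b).1, ?_, Or.inr (Or.inr ⟨rfl, ha⟩)⟩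
  have hσ1 : ∀ x, D.cu q (σ x) = D.cu q x := fun x => (hu _ _ (hσ x)).1
  have hσ2 : ∀ x, σ x ∈ D.X q s ↔ x ∈ D.X q s := fun x => (hu _ _ (hσ x)).2
  have hτ1 : ∀ y, D.cv q (τ y) = D.cv q y := fun y => (hv _ _ (hτ y)).1
  have hτ2 : ∀ y, τ y ∈ D.Y q s' ↔ y ∈ D.Y q s' := fun y => (hv _ _ (hτ y)).2
  have hRg : ∀ (r : ℕ) (p : P × H), Prod.map σ τ p ∈ Rg (D.cu q) (D.cv q) D.K (D.X q) (D.Y q) s s' r ↔
      p ∈ Rg (D.cu q) (D.cv q) D.K (D.X q) (D.Y q) s s' r := by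
    intro r p
    show (σ p.1 ∈ D.X q s ∧ τ p.2 ∈ D.Y q s' ∧ D.cu q (σ p.1) * D.K + D.cv q (τ p.2) = r) ↔
      (p.1 ∈ D.X q s ∧ p.2 ∈ D.Y q s' ∧ D.cu q p.1 * D.K + D.cv q p.2 = r)
    rw [hσ1, hτ1, hσ2, hτ2]
  rintro ⟨a, ga⟩ ⟨b, gb⟩ hab
  have hab' : Rel q s s' σ τ a b := hab
  rcases hab' with ⟨x, y, rfl, rfl⟩ | ⟨μ, rfl, rfl⟩ | ⟨rfl, hIn⟩
  · exact Or.inl ⟨x, y, rfl, rfl⟩
  · right
    refine ⟨_, _, rfl, rfl, ?_, ?_⟩
    · rintro ⟨⟨c, gc⟩, pos⟩ hz
      obtain ⟨p, hp, hz'⟩ := hz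
      obtain ⟨rfl, rfl⟩ : c = .var p.1 p.2 ∧ pos = true := by
        have := congrArg Lit.node hz'
        have h2 := congrArg Lit.pos hz'
        exact ⟨this, h2⟩
      exact ⟨⟨⟨.var (σ p.1) (τ p.2), trivial⟩, true⟩,
        ⟨Prod.map σ τ p, Finset.mem_image_of_mem _ hp, rfl⟩, rfl, Or.inl ⟨p.1, p.2, rfl, rfl⟩⟩
    · rintro ⟨⟨c, gc⟩, pos⟩ hz
      obtain ⟨p, hp, hz'⟩ := hz
      obtain ⟨p', hp', rfl⟩ := Finset.mem_image.1 hp
      obtain ⟨rfl, rfl⟩ : c = .var (σ p'.1) (τ p'.2) ∧ pos = true := by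
        have := congrArg Lit.node hz'
        have h2 := congrArg Lit.pos hz'
        exact ⟨this, h2⟩
      exact ⟨⟨⟨.var p'.1 p'.2, trivial⟩, true⟩, ⟨p', hp', rfl⟩, rfl,
        Or.inl ⟨p'.1, p'.2, rfl, rfl⟩⟩
  · right
    cases a with
    | top =>
      exact ⟨∅, ∅, rfl, rfl, fun x hx => absurd hx (Set.notMem_empty _),
        fun x hx => absurd hx (Set.notMem_empty _)⟩
    | cell q' t t' r l =>
      obtain ⟨rfl, rfl, rfl⟩ := hIn
      refine ⟨_, _, rfl, rfl, ?_, ?_⟩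
      · rintro ⟨⟨c, gc⟩, pos⟩ hz
        obtain ⟨μ, h1, h2, h3, hz'⟩ := hz
        obtain ⟨rfl, rfl⟩ : c = .cj μ ∧ pos = false :=
          ⟨congrArg Lit.node hz', congrArg Lit.pos hz'⟩
        have h4 : Good (.cj (μ.image (Prod.map σ τ)) : Nd D) := by
          show _ ≤ _
          rw [card_map]; exact gc
        refine ⟨⟨⟨.cj (μ.image (Prod.map σ τ)), h4⟩, false⟩,
          ⟨_, mt_image h1, ?_, by rw [card_map]; exact h3, rfl⟩, rfl, Or.inr (Or.inl ⟨μ, rfl, rfl⟩)⟩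
        intro p hp
        obtain ⟨p', hp', rfl⟩ := Finset.mem_image.1 (Finset.mem_coe.1 hp)
        exact (hRg r p').2 (h2 hp')
      · rintro ⟨⟨c, gc⟩, pos⟩ hz
        obtain ⟨μ, h1, h2, h3, hz'⟩ := hz
        obtain ⟨rfl, rfl⟩ : c = .cj μ ∧ pos = false :=
          ⟨congrArg Lit.node hz', congrArg Lit.pos hz'⟩
        have h4 : Good (.cj (μ.image (Prod.map σ.symm τ.symm)) : Nd D) := by
          show _ ≤ _
          rw [card_map (σ := σ.symm) (τ := τ.symm)]; exact gc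
        refine ⟨⟨⟨.cj (μ.image (Prod.map σ.symm τ.symm)), h4⟩, false⟩,
          ⟨_, mt_image (σ := σ.symm) (τ := τ.symm) h1, ?_,
            by rw [card_map (σ := σ.symm) (τ := τ.symm)]; exact h3, rfl⟩, rfl,
          Or.inr (Or.inl ⟨_, rfl, ?_⟩)⟩
        · intro p hp
          obtain ⟨p', hp', rfl⟩ := Finset.mem_image.1 (Finset.mem_coe.1 hp)
          rw [← hRg]
          have h5 : Prod.map σ τ (Prod.map σ.symm τ.symm p') = p' :=
            Prod.ext (σ.apply_symm_apply _) (τ.apply_symm_apply _)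
          rw [h5]
          exact h2 hp'
        · show (.cj μ : Nd D) = _
          rw [map_inv]
    | pr q' t t' r a b =>
      obtain ⟨rfl, rfl, rfl⟩ := hIn
      have key : ∀ z : Lit (Nd D), (z = totL q' t t' r a ∨ z = cellL q' t t' r b) →
          In q' t t' z.node := by
        rintro z (rfl | rfl)
        · unfold totL
          split_ifs
          · exact trivial
          · exact trivial
          · exact ⟨rfl, rfl, rfl⟩
        · unfold cellL
          split_ifs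
          · exact ⟨rfl, rfl, rfl⟩
          · exact trivial
      refine ⟨_, _, rfl, rfl, ?_, ?_⟩
      · rintro ⟨⟨c, gc⟩, pos⟩ hz
        exact ⟨⟨⟨c, gc⟩, pos⟩, hz, rfl, Or.inr (Or.inr ⟨rfl, key _ hz⟩)⟩
      · rintro ⟨⟨c, gc⟩, pos⟩ hz
        exact ⟨⟨⟨c, gc⟩, pos⟩, hz, rfl, Or.inr (Or.inr ⟨rfl, key _ hz⟩)⟩
    | sn q' t t' r l =>
      obtain ⟨rfl, rfl, rfl⟩ := hIn
      have key : ∀ z : Lit (Nd D), (∃ r' a b, r = r' + 1 ∧ a + b = l ∧
          z = ⟨.pr q' t t' r' a b, false⟩) → In q' t t' z.node := by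
        rintro z ⟨r', a, b, -, -, rfl⟩
        exact ⟨rfl, rfl, rfl⟩
      refine ⟨_, _, rfl, rfl, ?_, ?_⟩
      · rintro ⟨⟨c, gc⟩, pos⟩ hz
        exact ⟨⟨⟨c, gc⟩, pos⟩, hz, rfl, Or.inr (Or.inr ⟨rfl, key _ hz⟩)⟩
      · rintro ⟨⟨c, gc⟩, pos⟩ hz
        exact ⟨⟨⟨c, gc⟩, pos⟩, hz, rfl, Or.inr (Or.inr ⟨rfl, key _ hz⟩)⟩
    | var x y => exact hIn.elim
    | cj μ => exact hIn.elim
    | pg x => exact hIn.elim
    | hl y => exact hIn.elim
    | hv q => exact hIn.elim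
    | rn q τ => exact hIn.elim
    | pc z l => exact hIn.elim
    | ch l => exact hIn.elim
    | vn c z e => exact hIn.elim
    | kk c d z i => exact hIn.elim
    | rp v z => exact hIn.elim
    | ex v => exact hIn.elim

theorem built_succ {C : Circuit P H} {L r : ℕ} : ∀ {d : ℕ} {a : C.N}, C.Built L r d a →
    C.Built L r (d + 1) a := by
  intro d
  induction d with
  | zero => intro a h; exact Or.inl h
  | succ d ih =>
    rintro a (h | h)
    · exact Or.inl h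
    · exact Or.inr fun x hx => ih (h x hx)

theorem built_le {C : Circuit P H} {L r d d' : ℕ} (h : d ≤ d') {a : C.N} (ha : C.Built L r d a) :
    C.Built L r d' a := by
  induction h with
  | refl => exact ha
  | step _ ih => exact built_succ ih

/-- all nodes are built in depth 9 from homogeneous formulas -/
theorem built_all {L r : ℕ} (hhom : ∀ (q : D.Q) (s s' : ℕ), s ≤ D.m + 1 → s' ≤ D.m →
      ∃ (u : P → ℕ) (v : H → ℕ),
      (∀ x x', u x = u x' → D.cu q x = D.cu q x' ∧ (x ∈ D.X q s ↔ x' ∈ D.X q s)) ∧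
      (∀ y y', v y = v y' → D.cv q y = D.cv q y' ∧ (y ∈ D.Y q s' ↔ y' ∈ D.Y q s')) ∧
      rare u L + rare v L ≤ r) (a : (Cc D).N) : (Cc D).Built L r 9 a := by
  -- one step
  have step : ∀ (d : ℕ) (a : Nd D) (ga : Good a),
      (∀ z ∈ (gate0 a).children, ∀ gz : Good z.node,
        (Cc D).Built L r d (⟨z.node, gz⟩ : {a : Nd D // Good a})) →
      (Cc D).Built L r (d + 1) (⟨a, ga⟩ : {a : Nd D // Good a}) := by
    intro d a ga h
    right
    rintro ⟨⟨c, gc⟩, pos⟩ hx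
    have hx' : (⟨c, pos⟩ : Lit (Nd D)) ∈ (gate0 a).children := by
      have e : (Cc D).gate (⟨a, ga⟩ : {a : Nd D // Good a}) = resG (gate0 a) := rfl
      rw [e] at hx
      rcases hg : gate0 a with ⟨i, j⟩ | S
      · rw [hg] at hx
        exact absurd hx (Set.notMem_empty _)
      · rw [hg] at hx
        exact hx
    exact h ⟨c, pos⟩ hx' gc
  have hcount : ∀ (a : Nd D) (ga : Good a), (∃ q s s', s ≤ D.m + 1 ∧ s' ≤ D.m ∧ In q s s' a) →
      (Cc D).Built L r 0 (⟨a, ga⟩ : {a : Nd D // Good a}) := by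
    rintro a ga ⟨q, s, s', h1, h2, h3⟩
    obtain ⟨u, v, hu, hv, hr⟩ := hhom q s s' h1 h2
    exact hom_count hu hv hr _ h3
  have hvar : ∀ x y (g : Good (.var x y : Nd D)),
      (Cc D).Built L r 1 (⟨.var x y, g⟩ : {a : Nd D // Good a}) :=
    fun x y g => step 0 _ g fun z hz => absurd hz (Set.notMem_empty _)
  have htop : ∀ (g : Good (.top : Nd D)), (Cc D).Built L r 1 (⟨.top, g⟩ : {a : Nd D // Good a}) :=
    fun g => step 0 _ g fun z hz => absurd hz (Set.notMem_empty _)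
  have hcj : ∀ μ (g : Good (.cj μ : Nd D)),
      (Cc D).Built L r 2 (⟨.cj μ, g⟩ : {a : Nd D // Good a}) := by
    intro μ g
    refine step 1 _ g ?_
    rintro _ ⟨p, -, rfl⟩ gz
    exact hvar _ _ gz
  have hrn : ∀ q τ (g : Good (.rn q τ : Nd D)),
      (Cc D).Built L r 3 (⟨.rn q τ, g⟩ : {a : Nd D // Good a}) := by
    intro q τ g
    refine step 2 _ g ?_
    rintro _ ⟨μ, -, -, -, -, rfl⟩ gz
    exact hcj _ gz
  have hpc : ∀ z l (g : Good (.pc z l : Nd D)),
      (Cc D).Built L r 4 (⟨.pc z l, g⟩ : {a : Nd D // Good a}) := by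
    intro z l g
    refine step 3 _ g ?_
    rintro _ ⟨⟨y1, y2, y3 | y3⟩, -, rfl⟩ gz
    · exact built_le (by norm_num) (htop gz)
    · exact hrn _ _ gz
  have hch : ∀ l (g : Good (.ch l : Nd D)),
      (Cc D).Built L r 5 (⟨.ch l, g⟩ : {a : Nd D // Good a}) := by
    intro l g
    refine step 4 _ g ?_
    rintro _ ⟨s, -, rfl⟩ gz
    exact hpc _ _ gz
  have hvn : ∀ c z e (g : Good (.vn c z e : Nd D)),
      (Cc D).Built L r 6 (⟨.vn c z e, g⟩ : {a : Nd D // Good a}) := by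
    intro c z e g
    refine step 5 _ g ?_
    rintro _ ⟨l, -, rfl⟩ gz
    exact hch _ gz
  have hkk : ∀ b c z i (g : Good (.kk b c z i : Nd D)),
      (Cc D).Built L r 7 (⟨.kk b c z i, g⟩ : {a : Nd D // Good a}) := by
    intro b c z i g
    refine step 6 _ g ?_
    rintro _ (rfl | rfl) gz
    · exact hvn _ _ _ gz
    · exact hvn _ _ _ gz
  have hrp : ∀ v z (g : Good (.rp v z : Nd D)),
      (Cc D).Built L r 8 (⟨.rp v z, g⟩ : {a : Nd D // Good a}) := by
    intro v z g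
    refine step 7 _ g ?_
    rintro _ ⟨i, c, -, rfl | rfl⟩ gz
    · exact hkk _ _ _ _ gz
    · exact hkk _ _ _ _ gz
  obtain ⟨a, ga⟩ : {a : Nd D // Good a} := a
  cases a with
  | var x y => exact built_le (by norm_num) (hvar _ _ ga)
  | cj μ => exact built_le (by norm_num) (hcj _ ga)
  | top => exact built_le (by norm_num) (htop ga)
  | pg x =>
    refine step 8 _ ga ?_
    rintro _ ⟨y, rfl⟩ gz
    exact built_le (by norm_num) (hvar _ _ gz)
  | hl y =>
    refine step 8 _ ga ?_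
    rintro _ ⟨x, rfl⟩ gz
    exact built_le (by norm_num) (hvar _ _ gz)
  | cell q s s' i l => exact built_le (by norm_num) (hcount _ ga ⟨q, s, s', ga.1, ga.2.1, rfl, rfl, rfl⟩)
  | pr q s s' i a b =>
    exact built_le (by norm_num) (hcount _ ga ⟨q, s, s', ga.1, ga.2.1, rfl, rfl, rfl⟩)
  | sn q s s' i l => exact built_le (by norm_num) (hcount _ ga ⟨q, s, s', ga.1, ga.2.1, rfl, rfl, rfl⟩)
  | hv q =>
    refine step 8 _ ga ?_
    rintro _ ⟨μ, -, -, -, rfl⟩ gz
    exact built_le (by norm_num) (hcj _ gz)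
  | rn q τ => exact built_le (by norm_num) (hrn _ _ ga)
  | pc z l => exact built_le (by norm_num) (hpc _ _ ga)
  | ch l => exact built_le (by norm_num) (hch _ ga)
  | vn c z e => exact built_le (by norm_num) (hvn _ _ _ ga)
  | kk b c z i => exact built_le (by norm_num) (hkk _ _ _ _ ga)
  | rp v z => exact built_le (by norm_num) (hrp _ _ ga)
  | ex v =>
    refine step 8 _ ga ?_
    rintro _ ⟨z, rfl⟩ gz
    exact hrp _ _ gz

end Pool.Agent.H63.UC
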