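import Pool.Agent.H63.UC.Blk
import Pool.Agent.H63.UC.Sym
import Pool.Agent.H63.UC.Card
import Pool.Agent.H63.UC.Pw

/-!
# Refutations with large blocks
-/

set_option autoImplicit false
set_option linter.unusedSectionVars false

namespace Pool.Agent.H63.UC

open Finset Pool.Agent.H63.YL Pool.Agent.H63.UB

/-- the number of quotients -/
def qn (A : Par) : ℕ := A.R / A.p + 2

/-- the sets of pigeons with quotients -/
def TZ (A : Par) (n k : ℕ) : Type :=
  {Z : Finset (Fin (n + 1) × Fin (qn A) × Fin (qn A)) // Z.card = k + 1 ∧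
    ∃ j < A.S, ∀ z ∈ Z, (z.1 : ℕ) < A.w * A.p ∧ A.strip ((z.1 : ℕ) / A.p) = j}

noncomputable instance (A : Par) (n k : ℕ) : Fintype (TZ A n k) := by
  classical
  unfold TZ
  infer_instance

/-- the names of the matchings -/
abbrev TT (A : Par) (n k : ℕ) : Type := TZ A n k × Fin A.p × Fin A.p

theorem card_TZ (A : Par) (n k : ℕ) :
    Fintype.card (TZ A n k) ≤ A.S * (2 * A.L * A.p * (qn A * qn A)).choose (k + 1) := by
  classical
  let str : ℕ → Finset (Fin (n + 1)) := fun j =>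
    univ.filter fun x => (x : ℕ) < A.w * A.p ∧ A.strip ((x : ℕ) / A.p) = j
  have hstr : ∀ j, (str j).card ≤ 2 * A.L * A.p := by
    intro j
    have h1 : (str j).image (fun x : Fin (n + 1) => (x : ℕ)) ⊆
        Ico (j * A.L * A.p) ((j + 2) * A.L * A.p) := by
      intro y hy
      obtain ⟨x, hx, rfl⟩ := mem_image.1 hy
      obtain ⟨-, h2, h3⟩ := mem_filter.1 hx
      have h4 := A.strip_le (u := (x : ℕ) / A.p)
      have h5 := A.lt_strip (Par.row_lt h2)
      rw [h3] at h4 h5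
      rw [mem_Ico]
      refine ⟨?_, ?_⟩
      · exact (Nat.mul_le_mul_right _ h4).trans (Nat.div_mul_le_self _ _)
      · exact (Nat.div_lt_iff_lt_mul A.hp).1 h5
    have h2 := card_le_card h1
    rw [card_image_of_injective _ Fin.val_injective, Nat.card_Ico] at h2
    have h3 : (j + 2) * A.L * A.p = j * A.L * A.p + 2 * A.L * A.p := by ring
    omega
  have hinj : Function.Injective
      (fun X : TZ A n k => (X.1 : Finset (Fin (n + 1) × Fin (qn A) × Fin (qn A)))) :=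
    fun X Y h => Subtype.ext h
  have h1 : Fintype.card (TZ A n k) ≤ ((range A.S).biUnion fun j =>
      powersetCard (k + 1) (str j ×ˢ (univ : Finset (Fin (qn A) × Fin (qn A))))).card := by
    rw [← card_univ, ← card_image_of_injective (univ : Finset (TZ A n k)) hinj]
    refine card_le_card ?_
    intro Y hY
    obtain ⟨X, -, rfl⟩ := mem_image.1 hY
    obtain ⟨X, h1, j, hj, h2⟩ := X
    refine mem_biUnion.2 ⟨j, mem_range.2 hj, mem_powersetCard.2 ⟨?_, h1⟩⟩
    intro x hx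
    exact mem_product.2 ⟨mem_filter.2 ⟨mem_univ _, h2 x hx⟩, mem_univ _⟩
  refine h1.trans (card_biUnion_le.trans ?_)
  calc ∑ j ∈ range A.S, (powersetCard (k + 1)
          (str j ×ˢ (univ : Finset (Fin (qn A) × Fin (qn A))))).card
      ≤ ∑ _j ∈ range A.S, (2 * A.L * A.p * (qn A * qn A)).choose (k + 1) := by
        refine sum_le_sum fun j _ => ?_
        rw [card_powersetCard, card_product, card_univ, Fintype.card_prod, Fintype.card_fin]
        exact Nat.choose_le_choose _ (Nat.mul_le_mul_right _ (hstr j))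
    _ = A.S * (2 * A.L * A.p * (qn A * qn A)).choose (k + 1) := by
        rw [sum_const, card_range, smul_eq_mul]

theorem pow_le_fact (m : ℕ) : m ^ m ≤ 4 ^ m * m.factorial := by
  calc m ^ m ≤ (m + 1) ^ m := Nat.pow_le_pow_left (by omega) _
    _ ≤ (m + 1).ascFactorial m := Nat.pow_succ_le_ascFactorial _ _
    _ = m.factorial * (m + m).choose m := Nat.ascFactorial_eq_factorial_mul_choose _ _
    _ ≤ m.factorial * 2 ^ (m + m) := Nat.mul_le_mul_left _ (Nat.choose_le_two_pow _ _)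
    _ = 4 ^ m * m.factorial := by
        rw [← two_mul, pow_mul, mul_comm]; norm_num

theorem choose_pow (N m : ℕ) : N.choose m * m ^ m ≤ 4 ^ m * N ^ m := by
  calc N.choose m * m ^ m ≤ N.choose m * (4 ^ m * m.factorial) :=
        Nat.mul_le_mul_left _ (pow_le_fact m)
    _ = 4 ^ m * (m.factorial * N.choose m) := by ring
    _ = 4 ^ m * N.descFactorial m := by rw [Nat.descFactorial_eq_factorial_mul_choose]
    _ ≤ 4 ^ m * N ^ m := Nat.mul_le_mul_left _ (Nat.descFactorial_le_pow _ _)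

/-- the pairs of partitions -/
abbrev QQ (A : Par) (k : ℕ) : Type := (Fin (k + 1) → ZMod A.R) × (Fin (k + 1) → ZMod A.R)

theorem card_QQ (A : Par) (k : ℕ) : Fintype.card (QQ A k) = (A.R ^ 2) ^ (k + 1) := by
  rw [Fintype.card_prod, Fintype.card_fun, ZMod.card, Fintype.card_fin, ← mul_pow, pow_two]

theorem card_ineq {A : Par} {n k : ℕ} (hk1 : 1 ≤ k) (hkp : 144 * A.L ≤ (k + 1) * A.p)
    (hk : 4 * (A.S * A.p ^ 2) ≤ 2 ^ (k + 1)) :
    2 * (Fintype.card (TT A n k) + 2) ≤ Fintype.card (QQ A k) := by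
  rw [card_QQ, Fintype.card_prod, Fintype.card_prod, Fintype.card_fin]
  have hT := card_TZ A n k
  obtain ⟨m, hm⟩ : ∃ m, m = k + 1 := ⟨_, rfl⟩
  rw [← hm] at hT hkp hk ⊢
  obtain ⟨N, hN⟩ : ∃ N, N = 2 * A.L * A.p * (qn A * qn A) := ⟨_, rfl⟩
  rw [← hN] at hT
  have hp := A.hp
  have hL := A.hL
  have haa : A.p * qn A ≤ 3 * A.R := by
    unfold qn
    have h1 : A.p * (A.R / A.p) ≤ A.R := Nat.mul_div_le _ _
    have h2 := A.hpR
    calc A.p * (A.R / A.p + 2) = A.p * (A.R / A.p) + 2 * A.p := by ring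
      _ ≤ 3 * A.R := by omega
  have hNp : 4 * (N * A.p) ≤ 72 * A.L * A.R ^ 2 := by
    calc 4 * (N * A.p) = 8 * A.L * ((A.p * qn A) * (A.p * qn A)) := by rw [hN]; ring
      _ ≤ 8 * A.L * ((3 * A.R) * (3 * A.R)) := Nat.mul_le_mul_left _ (Nat.mul_le_mul haa haa)
      _ = 72 * A.L * A.R ^ 2 := by ring
  have h1 : Fintype.card (TZ A n k) * (m * A.p) ^ m ≤ A.S * (72 * A.L * A.R ^ 2) ^ m := by
    calc Fintype.card (TZ A n k) * (m * A.p) ^ m ≤ (A.S * N.choose m) * (m * A.p) ^ m :=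
          Nat.mul_le_mul_right _ hT
      _ = A.S * (N.choose m * m ^ m) * A.p ^ m := by rw [mul_pow]; ring
      _ ≤ A.S * (4 ^ m * N ^ m) * A.p ^ m :=
          Nat.mul_le_mul_right _ (Nat.mul_le_mul_left _ (choose_pow N m))
      _ = A.S * (4 * (N * A.p)) ^ m := by rw [mul_pow, mul_pow]; ring
      _ ≤ A.S * (72 * A.L * A.R ^ 2) ^ m := Nat.mul_le_mul_left _ (Nat.pow_le_pow_left hNp _)
  have h2 : Fintype.card (TZ A n k) * 2 ^ m ≤ A.S * (A.R ^ 2) ^ m := by
    have h3 : Fintype.card (TZ A n k) * (144 * A.L) ^ m ≤ A.S * (72 * A.L * A.R ^ 2) ^ m :=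
      (Nat.mul_le_mul_left _ (Nat.pow_le_pow_left hkp _)).trans h1
    have h4 : (144 * A.L) ^ m = (72 * A.L) ^ m * 2 ^ m := by rw [← mul_pow]; congr 1; ring
    have h5 : (72 * A.L * A.R ^ 2) ^ m = (72 * A.L) ^ m * (A.R ^ 2) ^ m := mul_pow _ _ _
    rw [h4, h5] at h3
    have h6 : 0 < (72 * A.L) ^ m := pow_pos (by omega) _
    refine Nat.le_of_mul_le_mul_left ?_ h6
    calc (72 * A.L) ^ m * (Fintype.card (TZ A n k) * 2 ^ m)
        = Fintype.card (TZ A n k) * ((72 * A.L) ^ m * 2 ^ m) := by ring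
      _ ≤ A.S * ((72 * A.L) ^ m * (A.R ^ 2) ^ m) := h3
      _ = (72 * A.L) ^ m * (A.S * (A.R ^ 2) ^ m) := by ring
  have hS := A.S_pos
  have h3 : 4 * (Fintype.card (TZ A n k) * (A.p * A.p)) ≤ (A.R ^ 2) ^ m := by
    have h4 : A.S * (4 * (Fintype.card (TZ A n k) * (A.p * A.p))) ≤ A.S * (A.R ^ 2) ^ m := by
      calc A.S * (4 * (Fintype.card (TZ A n k) * (A.p * A.p)))
          = Fintype.card (TZ A n k) * (4 * (A.S * A.p ^ 2)) := by ring
        _ ≤ Fintype.card (TZ A n k) * 2 ^ m := Nat.mul_le_mul_left _ hk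
        _ ≤ A.S * (A.R ^ 2) ^ m := h2
    exact Nat.le_of_mul_le_mul_left h4 (by omega)
  have hR : 3 ≤ A.R := by
    have := A.hLR; omega
  have h4 : 3 ^ 2 ≤ A.R ^ 2 := Nat.pow_le_pow_left hR 2
  have h5 : 9 ^ 1 ≤ (A.R ^ 2) ^ m := by
    calc 9 ^ 1 ≤ (A.R ^ 2) ^ 1 := Nat.pow_le_pow_left (by omega) _
      _ ≤ (A.R ^ 2) ^ m := Nat.pow_le_pow_right (by omega) (by omega)
  omega

/-- **The data.** -/
theorem exists_dat (A : Par) {n k w : ℕ} (hn1 : 1 ≤ n) (hAw : A.w = n / A.p) (hk1 : 1 ≤ k)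
    (hineq : 2 * (Fintype.card (TT A n k) + 2) ≤ Fintype.card (QQ A k))
    (hw : Fintype.card (QQ A k) ≤ 2 ^ w) :
    ∃ D : Dat (Fin (n + 1)) (Fin n), D.k = k ∧ D.K = 2 * n + 1 ∧ D.m = n ∧ D.w = w ∧
      (∃ _ : Fintype D.Q, Fintype.card D.Q ≤ 2 ^ w) ∧
      (∃ _ : Fintype D.T, Fintype.card D.T + 2 ≤ 2 ^ w) ∧ Fit D ∧ Named D ∧
      ∀ (q : D.Q) (s s' : ℕ), s ≤ D.m + 1 → s' ≤ D.m → ∃ (u : Fin (n + 1) → ℕ) (v : Fin n → ℕ),
        (∀ x x', u x = u x' → D.cu q x = D.cu q x' ∧ (x ∈ D.X q s ↔ x' ∈ D.X q s)) ∧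
        (∀ y y', v y = v y' → D.cv q y = D.cv q y' ∧ (y ∈ D.Y q s' ↔ y' ∈ D.Y q s')) ∧
        rare u A.L + rare v A.L ≤ 2 * (A.p + 2 * A.L) := by
  classical
  have hp := A.hp
  have hwp : A.w * A.p ≤ n := by rw [hAw]; exact Nat.div_mul_le_self _ _
  have hwp' : n < A.w * A.p + A.p := by
    rw [hAw]
    exact Nat.lt_div_mul_add (a := n) hp
  have hU : Fintype.card (Bool ⊕ TT A n k) = Fintype.card (TT A n k) + 2 := by
    rw [Fintype.card_sum, Fintype.card_bool]; omega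
  -- the names of the pairs of partitions
  obtain ⟨ι⟩ : Nonempty (Bool × (Bool ⊕ TT A n k) ↪ QQ A k) := by
    apply Function.Embedding.nonempty_of_card_le
    rw [Fintype.card_prod, Fintype.card_bool, hU]
    exact hineq
  -- the words
  obtain ⟨ε⟩ : Nonempty ((Bool ⊕ TT A n k) ↪ (Fin w → Bool)) := by
    apply Function.Embedding.nonempty_of_card_le
    rw [hU, Fintype.card_fun, Fintype.card_bool, Fintype.card_fin]
    omega
  let g : QQ A k → Fin (n + 1) × Fin n → Fin (n + 1) × Fin (qn A) × Fin (qn A) := fun q z =>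
    (z.1, ⟨A.quo q.1 z.1, A.quo_lt _ _⟩, ⟨A.quo q.2 z.2, A.quo_lt _ _⟩)
  let D : Dat (Fin (n + 1)) (Fin n) :=
    { k := k
      K := 2 * n + 1
      m := n
      w := w
      Q := QQ A k
      T := TT A n k
      cu := fun q x => A.col q.1 x
      cv := fun q y => A.col q.2 y
      X := fun q s => Stg (fun x : Fin (n + 1) => A.col q.1 x) s
      Y := fun q s => Stg (fun y : Fin n => A.col q.2 y) s
      cd := fun q μ τ => τ.1.1 = μ.image (g q) ∧
        ∀ z ∈ μ, A.res q.1 z.1 = τ.2.1 ∧ A.res q.2 z.2 = τ.2.2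
      io := fun a z => ι (a, z)
      enc := fun z => List.ofFn (ε z)
      enc_len := fun z => List.length_ofFn }
  have hcol : ∀ (a : Fin (k + 1) → ZMod A.R) (x : ℕ), x ≤ n → A.col a x < 2 * n + 1 := by
    intro a x hx
    by_cases h : x < A.w * A.p
    · have := Par.col_main_lt (a := a) h
      omega
    · rw [Par.col_rest h]; omega
  have hfst : ∀ μ : Finset (Fin (n + 1) × Fin n), Mt μ →
      Set.InjOn (fun p : Fin (n + 1) × Fin n => p.1) (μ : Set (Fin (n + 1) × Fin n)) :=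
    fun μ hμ p hp q hq h => hμ p hp q hq (Or.inl h)
  have hsnd : ∀ μ : Finset (Fin (n + 1) × Fin n), Mt μ →
      Set.InjOn (fun p : Fin (n + 1) × Fin n => p.2) (μ : Set (Fin (n + 1) × Fin n)) :=
    fun μ hμ p hp q hq h => hμ p hp q hq (Or.inr h)
  have hcZ : ∀ μ : Finset (Fin (n + 1) × Fin n), Mt μ → μ.card = k + 1 →
      (μ.image fun p => (p.1 : ℕ)).card = k + 1 := by
    intro μ h1 h2
    rw [card_image_of_injOn, h2]
    intro p hp q hq h
    exact hfst μ h1 hp hq (Fin.ext h)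
  have hcZ' : ∀ μ : Finset (Fin (n + 1) × Fin n), Mt μ → μ.card = k + 1 →
      (μ.image fun p => (p.2 : ℕ)).card = k + 1 := by
    intro μ h1 h2
    rw [card_image_of_injOn, h2]
    intro p hp q hq h
    exact hsnd μ h1 hp hq (Fin.ext h)
  refine ⟨D, rfl, rfl, rfl, rfl, ⟨(inferInstance : Fintype (QQ A k)), hw⟩,
    ⟨(inferInstance : Fintype (TT A n k)), ?_⟩, ?_, ?_, ?_⟩
  · show Fintype.card (TT A n k) + 2 ≤ 2 ^ w
    omega
  · refine ⟨?_, ?_, ?_, ?_, ?_, ?_, ?_, ?_, ?_, ?_, ?_, ?_⟩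
    · intro q x
      exact hcol q.1 x (by have := x.2; omega)
    · intro q y
      exact hcol q.2 y (by have := y.2; omega)
    · intro q; exact stg_zero _
    · intro q
      refine ⟨fun s => if h : s < n + 1 then
        Tuple.sort (fun x : Fin (n + 1) => A.col q.1 x) ⟨s, h⟩ else 0, fun s hs => ?_⟩
      have hs' : s < n + 1 := hs
      dsimp only
      rw [dif_pos hs']
      exact stg_succ _ hs'
    · intro q; exact stg_top _
    · intro q; exact stg_zero _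
    · intro q
      refine ⟨fun s => if h : s < n then
        Tuple.sort (fun y : Fin n => A.col q.2 y) ⟨s, h⟩ else ⟨0, hn1⟩, fun s hs => ?_⟩
      have hs' : s < n := hs
      dsimp only
      rw [dif_pos hs']
      exact (stg_succ _ hs').1
    · intro q; exact stg_top _
    · -- uniqueness
      rintro ⟨a, b⟩ ⟨a', b'⟩ μ h1 h2 h3 h4 τ ⟨g1, g2⟩ ⟨g1', g2'⟩
      have h2' : μ.card = k + 1 := h2
      have hq : ∀ z ∈ μ, A.quo a z.1 = A.quo a' z.1 ∧ A.quo b z.2 = A.quo b' z.2 := by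
        intro z hz
        have e1 : g (a, b) z ∈ μ.image (g (a', b')) := by
          rw [← g1', g1]; exact mem_image_of_mem _ hz
        obtain ⟨z', hz', e2⟩ := mem_image.1 e1
        have e3 : (g (a', b') z').1 = (g (a, b) z).1 := congrArg Prod.fst e2
        have e4 : z' = z := h1 z' hz' z hz (Or.inl e3)
        subst e4
        have e5 := congrArg (fun t => ((Prod.snd t).1 : ℕ)) e2
        have e6 := congrArg (fun t => ((Prod.snd t).2 : ℕ)) e2
        exact ⟨e5.symm, e6.symm⟩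
      have e1 : a = a' := by
        refine Par.coef_unique hk1 (Z := μ.image fun p => (p.1 : ℕ)) (hcZ μ h1 h2').ge ?_ ?_
        · intro x hx y hy
          obtain ⟨p, hp, rfl⟩ := mem_image.1 hx
          obtain ⟨q, hq, rfl⟩ := mem_image.1 hy
          exact (h3 p hp q hq).1
        · intro x hx
          obtain ⟨p, hp, rfl⟩ := mem_image.1 hx
          exact Par.tt_eq (hq p hp).1 ((g2 p hp).1.trans (g2' p hp).1.symm)
      have e2 : b = b' := by
        refine Par.coef_unique hk1 (Z := μ.image fun p => (p.2 : ℕ)) (hcZ' μ h1 h2').ge ?_ ?_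
        · intro x hx y hy
          obtain ⟨p, hp, rfl⟩ := mem_image.1 hx
          obtain ⟨q, hq, rfl⟩ := mem_image.1 hy
          exact (h3 p hp q hq).2
        · intro x hx
          obtain ⟨p, hp, rfl⟩ := mem_image.1 hx
          exact Par.tt_eq (hq p hp).2 ((g2 p hp).2.trans (g2' p hp).2.symm)
      rw [e1, e2]
    · -- the pigeons are determined by the name
      have key : ∀ (q : QQ A k) (μ : Finset (Fin (n + 1) × Fin n)) (τ : TT A n k),
          τ.1.1 = μ.image (g q) → ∀ x, (∃ y, (x, y) ∈ μ) ↔ ∃ z ∈ τ.1.1, z.1 = x := by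
        intro q μ τ h x
        rw [h]
        constructor
        · rintro ⟨y, hy⟩
          exact ⟨g q (x, y), mem_image_of_mem _ hy, rfl⟩
        · rintro ⟨z, hz, rfl⟩
          obtain ⟨z', hz', rfl⟩ := mem_image.1 hz
          exact ⟨z'.2, hz'⟩
      intro q q' μ ν τ h1 h2 x
      rw [key q μ τ h1.1 x, key q' ν τ h2.1 x]
    · intro a a' z z' h
      have h1 : (a, z) = (a', z') := ι.injective h
      exact ⟨congrArg Prod.fst h1, congrArg Prod.snd h1⟩
    · intro z z' h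
      exact ε.injective (List.ofFn_injective h)
  · -- names
    intro q μ h1 h2 h3
    have h2' : μ.card = k + 1 := h2
    have hmain : ∀ p ∈ μ, (p.1 : ℕ) < A.w * A.p := by
      intro p hp
      refine Par.all_main (a := q.1) (Z := μ.image fun p => (p.1 : ℕ))
        (by rw [hcZ μ h1 h2']; omega) ?_ _ (mem_image_of_mem _ hp)
      intro x hx y hy
      obtain ⟨p, hp, rfl⟩ := mem_image.1 hx
      obtain ⟨q, hq, rfl⟩ := mem_image.1 hy
      exact (h3 p hp q hq).1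
    have hmain' : ∀ p ∈ μ, (p.2 : ℕ) < A.w * A.p := by
      intro p hp
      refine Par.all_main (a := q.2) (Z := μ.image fun p => (p.2 : ℕ))
        (by rw [hcZ' μ h1 h2']; omega) ?_ _ (mem_image_of_mem _ hp)
      intro x hx y hy
      obtain ⟨p, hp, rfl⟩ := mem_image.1 hx
      obtain ⟨q, hq, rfl⟩ := mem_image.1 hy
      exact (h3 p hp q hq).2
    obtain ⟨p₀, hp₀⟩ : μ.Nonempty := by rw [← card_pos]; omega
    refine ⟨(⟨μ.image (g q), ?_, A.strip ((p₀.1 : ℕ) / A.p), A.strip_lt _, ?_⟩,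
      ⟨A.res q.1 p₀.1, A.res_lt _ _⟩, ⟨A.res q.2 p₀.2, A.res_lt _ _⟩), rfl, ?_⟩
    · rw [card_image_of_injOn, h2']
      intro z hz z' hz' h
      have h' : (g q z).1 = (g q z').1 := congrArg Prod.fst h
      exact hfst μ h1 hz hz' h'
    · intro x hx
      obtain ⟨p, hp, rfl⟩ := mem_image.1 hx
      exact ⟨hmain p hp, (Par.eq_col (hmain p hp) (hmain _ hp₀) (h3 p hp _ hp₀).1).1⟩
    · intro z hz
      exact ⟨(Par.eq_col (hmain z hz) (hmain _ hp₀) (h3 z hz _ hp₀).1).2,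
        (Par.eq_col (hmain' z hz) (hmain' _ hp₀) (h3 z hz _ hp₀).2).2⟩
  · intro q s s' hs hs'
    have hs1 : s ≤ n + 1 := hs
    have hs1' : s' ≤ n := hs'
    refine ⟨Par.ucol q.1 s, Par.ucol q.2 s', ?_, ?_, ?_⟩
    · intro x x' h
      exact Par.ucol_eq.1 h
    · intro y y' h
      exact Par.ucol_eq.1 h
    · have e1 := Par.rare_ucol (A := A) (N := n + 1) (by omega) (by omega) q.1 hs1
      have e2 := Par.rare_ucol (A := A) (N := n) hwp (by omega) q.2 hs1'
      omega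

/-- **Refutations with blocks of size `L`.** -/
theorem short {n L : ℕ} (hn0 : 1 ≤ n) (hn : n ≤ L ^ 2) (hL : 2 * L ≤ n) :
    ∃ R : Refutation (Fin (n + 1)) (Fin n), (∀ Λ ∈ R.lines, R.C.BuiltLine L (5 * L) 9 Λ) ∧
      R.size ≤ 2 ^ (L ^ 2 / n + Nat.log 2 n + 2) ^ 26 := by
  classical
  have hL2 : 2 ≤ L := by
    by_contra h
    have h1 : L = 0 ∨ L = 1 := by omega
    rcases h1 with rfl | rfl
    · simp at hn; omega
    · simp at hn; omega
  -- the parameters
  obtain ⟨p, hp⟩ : ∃ p, p = n / (2 * L) := ⟨_, rfl⟩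
  have hp1 : 1 ≤ p := by rw [hp]; exact (Nat.one_le_div_iff (by omega)).2 hL
  have hp2 : p * (2 * L) ≤ n := by rw [hp]; exact Nat.div_mul_le_self _ _
  have hp3 : n < (p + 1) * (2 * L) := by
    rw [hp, mul_comm]; exact Nat.lt_mul_div_succ _ (by omega)
  have hpL : p ≤ L := by
    by_contra h
    push Not at h
    have h1 : (L + 1) * (2 * L) ≤ p * (2 * L) := Nat.mul_le_mul_right _ h
    have h2 : (L + 1) * (2 * L) = 2 * L ^ 2 + 2 * L := by ring
    omega
  have hp4 : n ≤ 4 * L * p := by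
    have h1 : (p + 1) * (2 * L) ≤ (2 * p) * (2 * L) := Nat.mul_le_mul_right _ (by omega)
    have h2 : (2 * p) * (2 * L) = 4 * L * p := by ring
    omega
  have hLw : L ≤ n / p := by
    rw [Nat.le_div_iff_mul_le hp1]
    calc L * p ≤ p * (2 * L) := by
          have : p * (2 * L) = L * p + L * p := by ring
          omega
      _ ≤ n := hp2
  obtain ⟨R, hR, hR1, hR2⟩ := Nat.exists_prime_lt_and_le_two_mul (2 * L) (by omega)
  obtain ⟨A, hAL, hAw, hAp, hAR⟩ : ∃ A : Par, A.L = L ∧ A.w = n / p ∧ A.p = p ∧ A.R = R :=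
    ⟨⟨L, n / p, p, R, hR, by omega, hLw, hp1, hR1, by omega⟩, rfl, rfl, rfl, rfl⟩
  obtain ⟨ℓ, hℓ⟩ : ∃ ℓ, ℓ = Nat.log 2 n + 1 := ⟨_, rfl⟩
  have hnℓ : n < 2 ^ ℓ := by rw [hℓ]; exact Nat.lt_pow_succ_log_self (by norm_num) n
  obtain ⟨κ, hκ⟩ : ∃ κ, κ = L ^ 2 / n + 1 := ⟨_, rfl⟩
  have hn1 : 1 ≤ n := by omega
  have hκn : L ^ 2 < n * κ := by rw [hκ]; exact Nat.lt_mul_div_succ _ hn1
  have hκ2 : 2 ≤ κ := by
    rw [hκ]
    have : 1 ≤ L ^ 2 / n := (Nat.one_le_div_iff hn1).2 hn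
    omega
  have hℓ3 : 3 ≤ ℓ := by
    rw [hℓ]
    have h1 : 2 ≤ Nat.log 2 n := by
      refine Nat.le_log_of_pow_le (by norm_num) ?_
      omega
    omega
  obtain ⟨z, hz⟩ : ∃ z, z = κ + ℓ := ⟨_, rfl⟩
  have hzz : L ^ 2 / n + Nat.log 2 n + 2 = z := by omega
  obtain ⟨k, hk⟩ : ∃ k, k = 576 * κ + 2 * ℓ + 2 := ⟨_, rfl⟩
  have hkp : 144 * A.L ≤ (k + 1) * A.p := by
    rw [hAL, hAp]
    have h1 : 4 * L * (144 * L) ≤ 4 * L * ((k + 1) * p) := by
      calc 4 * L * (144 * L) = 576 * L ^ 2 := by ring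
        _ ≤ 576 * (n * κ) := Nat.mul_le_mul_left _ hκn.le
        _ = (576 * κ) * n := by ring
        _ ≤ (k + 1) * (4 * L * p) := Nat.mul_le_mul (by omega) hp4
        _ = 4 * L * ((k + 1) * p) := by ring
    exact Nat.le_of_mul_le_mul_left h1 (by omega)
  have hkS : 4 * (A.S * A.p ^ 2) ≤ 2 ^ (k + 1) := by
    have h1 : A.S * A.p ≤ n := by
      calc A.S * A.p ≤ A.S * A.L * A.p := Nat.mul_le_mul_right _
            (Nat.le_mul_of_pos_right _ (by rw [hAL]; omega))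
        _ ≤ A.w * A.p := Nat.mul_le_mul_right _ A.S_mul
        _ ≤ n := by rw [hAw, hAp]; exact Nat.div_mul_le_self _ _
    have h2 : A.p ≤ n := by rw [hAp]; omega
    calc 4 * (A.S * A.p ^ 2) = 4 * ((A.S * A.p) * A.p) := by ring
      _ ≤ 4 * (2 ^ ℓ * 2 ^ ℓ) :=
          Nat.mul_le_mul_left _ (Nat.mul_le_mul (h1.trans hnℓ.le) (h2.trans hnℓ.le))
      _ = 2 ^ (2 + (ℓ + ℓ)) := by rw [pow_add, pow_add]; norm_num
      _ ≤ 2 ^ (k + 1) := Nat.pow_le_pow_right (by norm_num) (by omega)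
  have hineq := card_ineq (A := A) (n := n) (k := k) (by omega) hkp hkS
  obtain ⟨w, hw⟩ : ∃ w, w = 2 * (k + 1) * (ℓ + 1) := ⟨_, rfl⟩
  have hRℓ : R ≤ 2 ^ (ℓ + 1) := by
    rw [pow_succ]; omega
  have hcQ : Fintype.card (QQ A k) ≤ 2 ^ w := by
    rw [card_QQ, hAR, ← pow_mul]
    calc R ^ (2 * (k + 1)) ≤ (2 ^ (ℓ + 1)) ^ (2 * (k + 1)) := Nat.pow_le_pow_left hRℓ _
      _ = 2 ^ w := by rw [← pow_mul, hw]; congr 1; ring
  obtain ⟨D, hDk, hDK, hDm, hDw, ⟨fQ, hQ⟩, ⟨fT, hT⟩, F, hN, hhom⟩ :=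
    exists_dat A (n := n) (k := k) (w := w) hn1 (by rw [hAw, hAp]) (by omega) hineq hcQ
  have hfin : Finite {a : Nd D // Good a} := finite_good D
  have hP := prov_empty F hN
  have hkw : k + 2 ≤ w := by
    rw [hw]
    calc k + 2 ≤ 2 * (k + 1) * 1 := by omega
      _ ≤ 2 * (k + 1) * (ℓ + 1) := Nat.mul_le_mul_left _ (by omega)
  have h2w : 2 ^ (ℓ + 2) ≤ 2 ^ w := Nat.pow_le_pow_right (by norm_num) (by omega)
  have h2w' : 4 * 2 ^ ℓ ≤ 2 ^ w := by
    rw [pow_add] at h2w; omega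
  have hcard : Nat.card (Cc D).N ≤ 2 ^ (11 * w ^ 3) := by
    rw [← hDw]
    refine card_good (D := D) rfl (by rw [hDw]; omega) (by rw [hDw]; exact hQ)
      (by rw [hDw]; exact hT) ?_ ?_ ?_ ?_ ?_
    · rw [hDw, Fintype.card_fin]; omega
    · rw [hDw, Fintype.card_fin]; omega
    · rw [hDw, hDm]; omega
    · rw [hDw, hDK]; omega
    · rw [hDw, hDk]; exact hkw
  refine ⟨Rf (Cc D) hP, ?_, ?_⟩
  · intro Λ _
    right
    intro x _
    have h1 := built_all (D := D) (L := L) (r := 5 * L) ?_ x.node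
    · exact h1
    · intro q s s' hs hs'
      obtain ⟨u, v, hu, hv, hr⟩ := hhom q s s' hs hs'
      refine ⟨u, v, hu, hv, ?_⟩
      rw [hAL, hAp] at hr
      have hpL2 : 2 * p ≤ L := by
        have h3 : 2 * p * L ≤ L * L := by
          calc 2 * p * L = p * (2 * L) := by ring
            _ ≤ n := hp2
            _ ≤ L ^ 2 := hn
            _ = L * L := pow_two L
        exact Nat.le_of_mul_le_mul_right h3 (by omega)
      omega
  · refine (size_Rf (Cc D) hP).trans ?_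
    rw [hzz]
    have h1 : 2 * Nat.card (Cc D).N + 2 ≤ 2 ^ (11 * w ^ 3 + 2) := by
      rw [pow_add]
      have : 1 ≤ 2 ^ (11 * w ^ 3) := Nat.one_le_two_pow
      omega
    calc (2 * Nat.card (Cc D).N + 2) ^ (W + 1) ≤ (2 ^ (11 * w ^ 3 + 2)) ^ (W + 1) :=
          Nat.pow_le_pow_left h1 _
      _ = 2 ^ ((11 * w ^ 3 + 2) * (W + 1)) := (pow_mul _ _ _).symm
      _ ≤ 2 ^ z ^ 26 := by
          refine Nat.pow_le_pow_right (by norm_num) ?_
          have hz5 : 5 ≤ z := by omega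
          have h2 : w ≤ 2312 * z ^ 2 := by
            rw [hw]
            calc 2 * (k + 1) * (ℓ + 1) ≤ 2 * (578 * z) * (2 * z) :=
                  Nat.mul_le_mul (Nat.mul_le_mul_left _ (by omega)) (by omega)
              _ = 2312 * z ^ 2 := by ring
          have h3 : w ^ 3 ≤ 2312 ^ 3 * z ^ 6 := by
            calc w ^ 3 ≤ (2312 * z ^ 2) ^ 3 := Nat.pow_le_pow_left h2 _
              _ = 2312 ^ 3 * z ^ 6 := by ring
          have h4 : 1 ≤ z ^ 6 := Nat.one_le_pow _ _ (by omega)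
          have hW : W + 1 = 201 := rfl
          rw [hW]
          calc (11 * w ^ 3 + 2) * 201 ≤ (11 * (2312 ^ 3 * z ^ 6) + 2 * z ^ 6) * 201 := by
                refine Nat.mul_le_mul_right _ (by omega)
            _ = ((11 * 2312 ^ 3 + 2) * 201) * z ^ 6 := by ring
            _ ≤ 5 ^ 20 * z ^ 6 := Nat.mul_le_mul_right _ (by norm_num)
            _ ≤ z ^ 20 * z ^ 6 := Nat.mul_le_mul_right _ (Nat.pow_le_pow_left hz5 _)
            _ = z ^ 26 := by rw [← pow_add]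

end Pool.Agent.H63.UC
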