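import Pool.Agent.H63.UC.Spread

/-!
# The circuit
-/

set_option autoImplicit false
set_option linter.unusedSectionVars false

namespace Pool.Agent.H63.UC

open Pool.Agent.H63.YL Pool.Agent.H63.UB

variable {P H : Type}

/-- The data of the circuit. -/
structure Dat (P H : Type) where
  /-- the largest number of edges of a light cell -/
  k : ℕ
  /-- the number of colours -/
  K : ℕ
  /-- the number of holes -/
  m : ℕ
  /-- the length of the words -/
  w : ℕ
  /-- the pairs of partitions -/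
  Q : Type
  /-- the names -/
  T : Type
  /-- the colours of the pigeons -/
  cu : Q → P → ℕ
  /-- the colours of the holes -/
  cv : Q → H → ℕ
  /-- the stages -/
  X : Q → ℕ → Set P
  /-- the stages -/
  Y : Q → ℕ → Set H
  /-- the names of the matchings -/
  cd : Q → Finset (P × H) → T → Prop
  /-- the pair of partitions named by a bit and an element -/
  io : Bool → Bool ⊕ T → Q
  /-- the word which names an element -/
  enc : Bool ⊕ T → List Bool
  enc_len : ∀ z, (enc z).length = w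

variable (D : Dat P H)

/-- The nodes. -/
inductive Nd (D : Dat P H) : Type
  | var (x : P) (y : H)
  | cj (μ : Finset (P × H))
  | top
  | pg (x : P)
  | hl (y : H)
  | cell (q : D.Q) (s s' r l : ℕ)
  | pr (q : D.Q) (s s' r a b : ℕ)
  | sn (q : D.Q) (s s' r l : ℕ)
  | hv (q : D.Q)
  | rn (q : D.Q) (τ : D.T)
  | pc (z : Bool ⊕ D.T) (l : List (Bool × (Bool ⊕ D.T)))
  | ch (l : List ((Bool ⊕ D.T) × List (Bool × (Bool ⊕ D.T))))
  | vn (bs : List Bool) (z e : Bool ⊕ D.T)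
  | kk (b : Bool) (bs : List Bool) (z i : Bool ⊕ D.T)
  | rp (v : List Bool) (z : Bool ⊕ D.T)
  | ex (v : List Bool)

variable {D}

/-- the counter of a cell -/
def cellL (q : D.Q) (s s' r b : ℕ) : Lit (Nd D) :=
  if b ≤ D.k + 1 then ⟨.cell q s s' r b, false⟩ else ⟨.top, false⟩

/-- the partial sums -/
def totL (q : D.Q) (s s' r a : ℕ) : Lit (Nd D) :=
  if r = 0 then (if a = 0 then ⟨.top, true⟩ else ⟨.top, false⟩) else ⟨.sn q s s' r a, false⟩

/-- the relation -/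
def rhoL (a : Bool) (z : Bool ⊕ D.T) : Bool ⊕ D.T → Lit (Nd D)
  | .inl _ => ⟨.top, false⟩
  | .inr τ => ⟨.rn (D.io a z) τ, false⟩

open Classical in
/-- the labels -/
def gate0 : Nd D → Gate P H (Nd D)
  | .var x y => .var x y
  | .cj μ => .and {z | ∃ p ∈ μ, z = ⟨.var p.1 p.2, true⟩}
  | .top => .and ∅
  | .pg x => .and {z | ∃ y, z = ⟨.var x y, false⟩}
  | .hl y => .and {z | ∃ x, z = ⟨.var x y, false⟩}
  | .cell q s s' r l => .and {z | ∃ μ : Finset (P × H), Mt μ ∧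
      (μ : Set (P × H)) ⊆ Rg (D.cu q) (D.cv q) D.K (D.X q) (D.Y q) s s' r ∧ μ.card = l ∧
      z = ⟨.cj μ, false⟩}
  | .pr q s s' r a b => .and {z | z = totL q s s' r a ∨ z = cellL q s s' r b}
  | .sn q s s' r l => .and {z | ∃ r' a b, r = r' + 1 ∧ a + b = l ∧ z = ⟨.pr q s s' r' a b, false⟩}
  | .hv q => .and {z | ∃ μ : Finset (P × H), Mt μ ∧ μ.card = D.k + 1 ∧
      Common (D.cu q) (D.cv q) μ ∧ z = ⟨.cj μ, false⟩}
  | .rn q τ => .and {z | ∃ μ : Finset (P × H), Mt μ ∧ μ.card = D.k + 1 ∧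
      Common (D.cu q) (D.cv q) μ ∧ D.cd q μ τ ∧ z = ⟨.cj μ, false⟩}
  | .pc z l => .and {x | ∃ y ∈ atoms z l, x = rhoL y.1 y.2.1 y.2.2}
  | .ch l => .and {x | ∃ s ∈ l, x = ⟨.pc s.1 s.2, true⟩}
  | .vn bs z e => .and {x | ∃ l, Valid D.enc D.w z bs e l ∧ x = ⟨.ch l, false⟩}
  | .kk b bs z i => .and {x | x = ⟨.vn (D.enc i) i (.inl false), !b⟩ ∨ x = ⟨.vn bs z (.inl b), true⟩}
  | .rp v z => .and {x | ∃ i bs, D.enc i = v ++ bs ∧
      (x = ⟨.kk true bs z i, false⟩ ∨ x = ⟨.kk false bs z i, false⟩)}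
  | .ex v => .and {x | ∃ z, x = ⟨.rp v z, false⟩}

/-- the level of a node -/
def rk : Nd D → ℕ
  | .var _ _ => 0
  | .cj _ => 1
  | .top => 0
  | .pg _ => 1
  | .hl _ => 1
  | .cell _ _ _ _ _ => 2
  | .pr _ _ _ r _ _ => 2 * r + 3
  | .sn _ _ _ r _ => 2 * r + 2
  | .hv _ => 2
  | .rn _ _ => 2
  | .pc _ _ => 3
  | .ch _ => 4
  | .vn _ _ _ => 5
  | .kk _ _ _ _ => 6
  | .rp _ _ => 7
  | .ex _ => 8

/-- the nodes of the circuit -/
def Good : Nd D → Prop
  | .var _ _ => True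
  | .cj μ => μ.card ≤ D.k + 1
  | .top => True
  | .pg _ => True
  | .hl _ => True
  | .cell _ s s' r l => s ≤ D.m + 1 ∧ s' ≤ D.m ∧ r < D.K * D.K ∧ l ≤ D.k + 1
  | .pr _ s s' r a b => s ≤ D.m + 1 ∧ s' ≤ D.m ∧ r < D.K * D.K ∧ a ≤ D.m + 1 ∧ b ≤ D.m + 1
  | .sn _ s s' r l => s ≤ D.m + 1 ∧ s' ≤ D.m ∧ r ≤ D.K * D.K ∧ l ≤ D.m + 1
  | .hv _ => True
  | .rn _ _ => True
  | .pc _ l => l.length ≤ D.w
  | .ch l => l.length ≤ D.w ∧ ∀ s ∈ l, s.2.length = D.w
  | .vn bs _ _ => bs.length ≤ D.w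
  | .kk _ bs _ _ => bs.length ≤ D.w
  | .rp v _ => v.length ≤ D.w
  | .ex v => v.length ≤ D.w

theorem good_child {a : Nd D} (ha : Good a) {z : Lit (Nd D)} (hz : z ∈ (gate0 a).children) :
    Good z.node ∧ rk z.node < rk a := by
  cases a with
  | var x y => exact absurd hz (Set.notMem_empty _)
  | cj μ =>
    obtain ⟨p, -, rfl⟩ := hz
    exact ⟨trivial, by simp [rk]⟩
  | top => exact absurd hz (Set.notMem_empty _)
  | pg x =>
    obtain ⟨y, rfl⟩ := hz
    exact ⟨trivial, by simp [rk]⟩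
  | hl y =>
    obtain ⟨x, rfl⟩ := hz
    exact ⟨trivial, by simp [rk]⟩
  | cell q s s' r l =>
    obtain ⟨μ, -, -, h3, rfl⟩ := hz
    exact ⟨h3.le.trans ha.2.2.2, by simp [rk]⟩
  | pr q s s' r a b =>
    obtain ⟨h1, h2, h3, h4, h5⟩ := ha
    rcases hz with rfl | rfl
    · unfold totL
      split_ifs with h6
      · exact ⟨trivial, by simp [rk]⟩
      · exact ⟨trivial, by simp [rk]⟩
      · exact ⟨⟨h1, h2, h3.le, h4⟩, by simp [rk]⟩
    · unfold cellL
      split_ifs with h6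
      · exact ⟨⟨h1, h2, h3, h6⟩, by simp [rk]⟩
      · exact ⟨trivial, by simp [rk]⟩
  | sn q s s' r l =>
    obtain ⟨h1, h2, h3, h4⟩ := ha
    obtain ⟨r', a, b, rfl, rfl, rfl⟩ := hz
    exact ⟨⟨h1, h2, by omega, by omega, by omega⟩, by simp [rk]; omega⟩
  | hv q =>
    obtain ⟨μ, -, h3, -, rfl⟩ := hz
    exact ⟨h3.le, by simp [rk]⟩
  | rn q τ =>
    obtain ⟨μ, -, h3, -, -, rfl⟩ := hz
    exact ⟨h3.le, by simp [rk]⟩
  | pc z l =>
    obtain ⟨y, -, rfl⟩ := hz
    rcases y with ⟨y1, y2, y3 | y3⟩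
    · exact ⟨trivial, by simp [rk, rhoL]⟩
    · exact ⟨trivial, by simp [rk, rhoL]⟩
  | ch l =>
    obtain ⟨s, hs, rfl⟩ := hz
    exact ⟨(ha.2 s hs).le, by simp [rk]⟩
  | vn bs z e =>
    obtain ⟨l, hl, rfl⟩ := hz
    exact ⟨⟨hl.length.le.trans ha, hl.seg⟩, by simp [rk]⟩
  | kk b bs z i =>
    rcases hz with rfl | rfl
    · exact ⟨(D.enc_len i).le, by simp [rk]⟩
    · exact ⟨ha, by simp [rk]⟩
  | rp v z =>
    obtain ⟨i, bs, hi, hz⟩ := hz
    have hlen := congrArg List.length hi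
    rw [D.enc_len, List.length_append] at hlen
    have h1 : bs.length ≤ D.w := by omega
    rcases hz with rfl | rfl
    · exact ⟨h1, by simp [rk]⟩
    · exact ⟨h1, by simp [rk]⟩
  | ex v =>
    obtain ⟨z, rfl⟩ := hz
    exact ⟨ha, by simp [rk]⟩

/-- the restriction of a label to the nodes of the circuit -/
def resG : Gate P H (Nd D) → Gate P H {a : Nd D // Good a}
  | .var x y => .var x y
  | .and S => .and {z | (⟨z.node.1, z.pos⟩ : Lit (Nd D)) ∈ S}

/-- **The circuit.** -/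
def Cc (D : Dat P H) [Finite {a : Nd D // Good a}] : Circuit P H where
  N := {a : Nd D // Good a}
  gate := fun a => resG (gate0 a.1)
  rank := fun a => rk a.1
  rank_lt := by
    rintro ⟨a, ha⟩ x hx
    have h1 : (⟨x.node.1, x.pos⟩ : Lit (Nd D)) ∈ (gate0 a).children := by
      rcases hg : gate0 a with ⟨i, j⟩ | S
      · dsimp only at hx
        rw [hg] at hx
        exact absurd hx (Set.notMem_empty _)
      · dsimp only at hx
        rw [hg] at hx
        exact hx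
    exact (good_child ha h1).2

open Classical in
/-- the node of the circuit -/
noncomputable def mk [Finite {a : Nd D // Good a}] (a : Nd D) : (Cc D).N :=
  if h : Good a then (⟨a, h⟩ : {a : Nd D // Good a}) else (⟨.top, trivial⟩ : {a : Nd D // Good a})

theorem mk_good [Finite {a : Nd D // Good a}] {a : Nd D} (h : Good a) :
    mk a = (⟨a, h⟩ : {a : Nd D // Good a}) := dif_pos h

/-- the same for signed nodes -/
noncomputable def mkL [Finite {a : Nd D // Good a}] (x : Lit (Nd D)) : Lit (Cc D).N :=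
  ⟨mk x.node, x.pos⟩

theorem gate_mk [Finite {a : Nd D // Good a}] {a : Nd D} (h : Good a) {S : Set (Lit (Nd D))}
    (hg : gate0 a = .and S) : (Cc D).gate (mk a) = .and (mkL '' S) := by
  have hS : ∀ x ∈ S, Good x.node := by
    intro x hx
    exact (good_child h (z := x) (by rw [hg]; exact hx)).1
  rw [mk_good h]
  show resG (gate0 a) = _
  rw [hg]
  show Gate.and _ = Gate.and _
  congr 1
  ext z
  constructor
  · intro hz
    refine ⟨_, hz, ?_⟩
    rcases z with ⟨⟨b, hb⟩, p⟩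
    show (⟨mk b, p⟩ : Lit (Cc D).N) = _
    rw [mk_good hb]
    rfl
  · rintro ⟨x, hx, rfl⟩
    show (⟨(show {a : Nd D // Good a} from mk x.node).1, x.pos⟩ : Lit (Nd D)) ∈ S
    rw [mk_good (hS x hx)]
    exact hx

theorem gate_mk_var [Finite {a : Nd D // Good a}] (x : P) (y : H) :
    (Cc D).gate (mk (.var x y : Nd D)) = .var x y := by
  rw [mk_good (a := (.var x y : Nd D)) trivial]
  rfl

end Pool.Agent.H63.UC
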