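import Mathlib

/-!
# Partitions given by polynomials
-/

set_option autoImplicit false
set_option linter.unusedSectionVars false

namespace Pool.Agent.H63.UC

open Finset

/-- the parameters -/
structure Par where
  /-- the length of the intervals of rows -/
  L : ℕ
  /-- the number of rows -/
  w : ℕ
  /-- the number of columns -/
  p : ℕ
  /-- the prime -/
  R : ℕ
  prime : R.Prime
  hL : 1 ≤ L
  hLw : L ≤ w
  hp : 1 ≤ p
  hLR : 2 * L < R
  hpR : p ≤ R

namespace Par

variable (A : Par)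

instance : Fact A.R.Prime := ⟨A.prime⟩

/-- the number of strips -/
def S : ℕ := A.w / A.L

/-- the strip of a row -/
def strip (u : ℕ) : ℕ := min (u / A.L) (A.S - 1)

theorem S_pos : 1 ≤ A.S := (Nat.one_le_div_iff A.hL).2 A.hLw

theorem S_mul : A.S * A.L ≤ A.w := Nat.div_mul_le_self _ _

theorem strip_lt (u : ℕ) : A.strip u < A.S := by
  have := A.S_pos
  unfold strip
  omega

theorem strip_le {u : ℕ} : A.strip u * A.L ≤ u := by
  unfold strip
  calc min (u / A.L) (A.S - 1) * A.L ≤ u / A.L * A.L := Nat.mul_le_mul_right _ (min_le_left _ _)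
    _ ≤ u := Nat.div_mul_le_self _ _

theorem lt_strip {u : ℕ} (hu : u < A.w) : u < (A.strip u + 2) * A.L := by
  have h1 := A.S_pos
  have h2 : u < (u / A.L + 1) * A.L := by
    rw [mul_comm]; exact Nat.lt_mul_div_succ _ A.hL
  rcases Nat.le_total (u / A.L) (A.S - 1) with h | h
  · have h3 : A.strip u = u / A.L := min_eq_left h
    rw [h3]
    exact h2.trans_le (Nat.mul_le_mul_right _ (by omega))
  · have h3 : A.strip u = A.S - 1 := min_eq_right h
    have h4 : A.w < (A.S + 1) * A.L := by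
      rw [mul_comm]; exact Nat.lt_mul_div_succ _ A.hL
    rw [h3]
    have h5 : A.S - 1 + 2 = A.S + 1 := by omega
    rw [h5]
    omega

theorem strip_eq {u j : ℕ} (hj : j < A.S) (h1 : j * A.L ≤ u) (h2 : u < (j + 1) * A.L) :
    A.strip u = j := by
  have h3 : u / A.L = j := Nat.div_eq_of_lt_le h1 h2
  unfold strip
  rw [h3]
  omega

/-- the polynomial -/
noncomputable def poly {k : ℕ} (a : Fin (k + 1) → ZMod A.R) : Polynomial (ZMod A.R) :=
  ∑ i : Fin (k + 1), Polynomial.C (a i) * Polynomial.X ^ (i : ℕ)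

theorem natDegree_poly {k : ℕ} (a : Fin (k + 1) → ZMod A.R) : (A.poly a).natDegree ≤ k := by
  unfold poly
  refine Polynomial.natDegree_sum_le_of_forall_le _ _ fun i _ => ?_
  refine (Polynomial.natDegree_C_mul_X_pow_le _ _).trans ?_
  have := i.2
  omega

theorem coeff_poly {k : ℕ} (a : Fin (k + 1) → ZMod A.R) (i : Fin (k + 1)) :
    (A.poly a).coeff (i : ℕ) = a i := by
  unfold poly
  rw [Polynomial.finsetSum_coeff, Finset.sum_eq_single i]
  · rw [Polynomial.coeff_C_mul, Polynomial.coeff_X_pow, if_pos rfl, mul_one]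
  · intro j _ hj
    rw [Polynomial.coeff_C_mul, Polynomial.coeff_X_pow, if_neg, mul_zero]
    intro h
    exact hj (Fin.ext (by omega))
  · intro h; exact absurd (mem_univ _) h

/-- the shift of a row -/
noncomputable def sh {k : ℕ} (a : Fin (k + 1) → ZMod A.R) (u : ℕ) : ℕ :=
  ((A.poly a).eval (u : ZMod A.R)).val

theorem sh_lt {k : ℕ} (a : Fin (k + 1) → ZMod A.R) (u : ℕ) : A.sh a u < A.R := ZMod.val_lt _

/-- the shifted column of a point -/
noncomputable def tt {k : ℕ} (a : Fin (k + 1) → ZMod A.R) (x : ℕ) : ℕ :=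
  x % A.p + A.sh a (x / A.p)

/-- the quotient -/
noncomputable def quo {k : ℕ} (a : Fin (k + 1) → ZMod A.R) (x : ℕ) : ℕ := A.tt a x / A.p

/-- the residue -/
noncomputable def res {k : ℕ} (a : Fin (k + 1) → ZMod A.R) (x : ℕ) : ℕ := A.tt a x % A.p

theorem quo_lt {k : ℕ} (a : Fin (k + 1) → ZMod A.R) (x : ℕ) : A.quo a x < A.R / A.p + 2 := by
  have hp := A.hp
  unfold quo tt
  have h1 := A.sh_lt a (x / A.p)
  have h2 : x % A.p < A.p := Nat.mod_lt _ hp
  rw [Nat.div_lt_iff_lt_mul hp]
  have h3 : A.R < (A.R / A.p + 1) * A.p := by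
    rw [mul_comm]; exact Nat.lt_mul_div_succ _ hp
  have h4 : (A.R / A.p + 2) * A.p = (A.R / A.p + 1) * A.p + A.p := by ring
  omega

theorem res_lt {k : ℕ} (a : Fin (k + 1) → ZMod A.R) (x : ℕ) : A.res a x < A.p :=
  Nat.mod_lt _ A.hp

/-- the colour of a point -/
noncomputable def col {k : ℕ} (a : Fin (k + 1) → ZMod A.R) (x : ℕ) : ℕ :=
  if x < A.w * A.p then A.strip (x / A.p) * A.p + A.res a x else A.w * A.p + x

variable {A} {k : ℕ}

theorem col_main {a : Fin (k + 1) → ZMod A.R} {x : ℕ} (hx : x < A.w * A.p) :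
    A.col a x = A.strip (x / A.p) * A.p + A.res a x := if_pos hx

theorem col_rest {a : Fin (k + 1) → ZMod A.R} {x : ℕ} (hx : ¬ x < A.w * A.p) :
    A.col a x = A.w * A.p + x := if_neg hx

theorem col_main_lt {a : Fin (k + 1) → ZMod A.R} {x : ℕ} (hx : x < A.w * A.p) :
    A.col a x < A.w * A.p := by
  rw [col_main hx]
  have h1 := A.strip_lt (x / A.p)
  have h2 := A.res_lt a x
  have h3 : A.S ≤ A.w := by
    have := A.S_mul
    have h4 : A.S * 1 ≤ A.S * A.L := Nat.mul_le_mul_left _ A.hL
    omega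
  calc A.strip (x / A.p) * A.p + A.res a x < A.strip (x / A.p) * A.p + A.p := by omega
    _ = (A.strip (x / A.p) + 1) * A.p := by ring
    _ ≤ A.w * A.p := Nat.mul_le_mul_right _ (by omega)

theorem main_of_eq {a : Fin (k + 1) → ZMod A.R} {x x' : ℕ} (h : A.col a x = A.col a x')
    (hne : x ≠ x') : x < A.w * A.p := by
  by_contra hx
  rw [col_rest hx] at h
  by_cases hx' : x' < A.w * A.p
  · have := col_main_lt (a := a) hx'
    omega
  · rw [col_rest hx'] at h
    omega

theorem eq_col {a : Fin (k + 1) → ZMod A.R} {x x' : ℕ} (hx : x < A.w * A.p)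
    (hx' : x' < A.w * A.p) (h : A.col a x = A.col a x') :
    A.strip (x / A.p) = A.strip (x' / A.p) ∧ A.res a x = A.res a x' := by
  rw [col_main hx, col_main hx'] at h
  have hp : 0 < A.p := A.hp
  have h1 := A.res_lt a x
  have h2 := A.res_lt a x'
  have h3 : A.strip (x / A.p) = A.strip (x' / A.p) := by
    have h4 : (A.strip (x / A.p) * A.p + A.res a x) / A.p =
        (A.strip (x' / A.p) * A.p + A.res a x') / A.p := by rw [h]
    rw [mul_comm, Nat.mul_add_div hp, Nat.div_eq_of_lt h1, mul_comm, Nat.mul_add_div hp,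
      Nat.div_eq_of_lt h2] at h4
    omega
  refine ⟨h3, ?_⟩
  rw [h3] at h
  omega

theorem row_lt {x : ℕ} (hx : x < A.w * A.p) : x / A.p < A.w :=
  Nat.div_lt_of_lt_mul (by rwa [mul_comm] at hx)

/-- points of one class lie in rows which are different modulo `R` -/
theorem row_inj {a : Fin (k + 1) → ZMod A.R} {x x' : ℕ} (hx : x < A.w * A.p)
    (hx' : x' < A.w * A.p) (h : A.col a x = A.col a x')
    (hr : ((x / A.p : ℕ) : ZMod A.R) = ((x' / A.p : ℕ) : ZMod A.R)) : x = x' := by
  obtain ⟨h1, h2⟩ := eq_col hx hx' h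
  have hrow : x / A.p = x' / A.p := by
    have e1 := A.strip_le (u := x / A.p)
    have e2 := A.lt_strip (row_lt hx)
    have e3 := A.strip_le (u := x' / A.p)
    have e4 := A.lt_strip (row_lt hx')
    rw [h1] at e1 e2
    have e5 : (A.strip (x' / A.p) + 2) * A.L = A.strip (x' / A.p) * A.L + 2 * A.L := by ring
    rw [e5] at e2 e4
    have e6 := A.hLR
    rw [ZMod.natCast_eq_natCast_iff] at hr
    rcases Nat.le_total (x / A.p) (x' / A.p) with h3 | h3
    · have h4 := (Nat.modEq_iff_dvd' h3).1 hr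
      have h5 := Nat.eq_zero_of_dvd_of_lt h4 (by omega)
      omega
    · have h4 := (Nat.modEq_iff_dvd' h3).1 hr.symm
      have h5 := Nat.eq_zero_of_dvd_of_lt h4 (by omega)
      omega
  have h3 : x % A.p ≡ x' % A.p [MOD A.p] := by
    unfold res tt at h2
    rw [hrow] at h2
    exact Nat.ModEq.add_right_cancel' _ h2
  have h4 : x % A.p = x' % A.p := by
    have h5 : x % A.p % A.p = x' % A.p % A.p := h3
    rwa [Nat.mod_mod, Nat.mod_mod] at h5
  rw [← Nat.div_add_mod x A.p, ← Nat.div_add_mod x' A.p, hrow, h4]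

/-- a set of points of one class is in the main part -/
theorem all_main {a : Fin (k + 1) → ZMod A.R} {Z : Finset ℕ} (hZ : 2 ≤ Z.card)
    (h : ∀ x ∈ Z, ∀ y ∈ Z, A.col a x = A.col a y) : ∀ x ∈ Z, x < A.w * A.p := by
  intro x hx
  obtain ⟨y, hy, hne⟩ : ∃ y ∈ Z, y ≠ x := by
    by_contra hcon
    push Not at hcon
    have h1 : Z ⊆ {x} := fun y hy => mem_singleton.2 (hcon y hy)
    have h2 := card_le_card h1
    rw [card_singleton] at h2
    omega
  exact main_of_eq (h x hx y hy) (Ne.symm hne)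

/-- **The quotients and the residue on a large set determine the polynomial.** -/
theorem coef_unique (hk : 1 ≤ k) {a a' : Fin (k + 1) → ZMod A.R} {Z : Finset ℕ}
    (hZ : k + 1 ≤ Z.card) (h : ∀ x ∈ Z, ∀ y ∈ Z, A.col a x = A.col a y)
    (h' : ∀ x ∈ Z, A.tt a x = A.tt a' x) : a = a' := by
  have hmain := all_main (by omega) h
  have key : A.poly a - A.poly a' = 0 := by
    refine Polynomial.eq_zero_of_natDegree_lt_card_of_eval_eq_zero' _
      (Z.image fun x => ((x / A.p : ℕ) : ZMod A.R)) ?_ ?_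
    · intro u hu
      obtain ⟨x, hx, rfl⟩ := mem_image.1 hu
      have e1 := h' x hx
      unfold tt sh at e1
      have e2 : (A.poly a).eval ((x / A.p : ℕ) : ZMod A.R) =
          (A.poly a').eval ((x / A.p : ℕ) : ZMod A.R) := ZMod.val_injective _ (by omega)
      rw [Polynomial.eval_sub, e2, sub_self]
    · rw [card_image_of_injOn]
      · have h1 : (A.poly a - A.poly a').natDegree ≤ k :=
          (Polynomial.natDegree_sub_le _ _).trans
              (max_le (A.natDegree_poly a) (A.natDegree_poly a'))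
        omega
      · intro x hx y hy hxy
        exact row_inj (hmain x hx) (hmain y hy) (h x hx y hy) hxy
  funext i
  have h1 := congrArg (fun f => Polynomial.coeff f (i : ℕ)) key
  simp only [Polynomial.coeff_sub, Polynomial.coeff_zero] at h1
  rw [A.coeff_poly, A.coeff_poly] at h1
  exact sub_eq_zero.1 h1

theorem tt_eq {a a' : Fin (k + 1) → ZMod A.R} {x : ℕ} (h1 : A.quo a x = A.quo a' x)
    (h2 : A.res a x = A.res a' x) : A.tt a x = A.tt a' x := by
  rw [← Nat.div_add_mod (A.tt a x) A.p, ← Nat.div_add_mod (A.tt a' x) A.p]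
  unfold quo at h1
  unfold res at h2
  rw [h1, h2]

end Par

end Pool.Agent.H63.UC
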